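import Pool.Agent.MP_5f72fe_nt.H3.SpecC
import Pool.Agent.MP_1246c0_nt.H15.VOL

/-! The volume of the fundamental domain for binary cubic forms of negative discriminant. -/

namespace Pool.Agent.MP_5f72fe_nt.H88

open Pool.Agent.MP_1246c0_nt.H55 Pool.Agent.MP_5f72fe_nt.H3 MeasureTheory Real Set
open Pool.Agent.MP_1246c0_nt.H15 (HD HD.comp HD.of hp hinv det4)

noncomputable def GA (z : Fm ℝ) : Fm ℝ := ![√(√(z 0) * (z 3 ^ 3 * 2⁻¹)), z 1, z 2, (z 3)⁻¹]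

noncomputable def GB (z : Fm ℝ) : Fm ℝ := ![z 0 * sin (z 1), z 0 * cos (z 1), z 2, z 3]

noncomputable def GC (z : Fm ℝ) : Fm ℝ := mkG (z 0) (z 1) (z 2) (z 3)

theorem dA (x : Fm ℝ) (h0 : 0 < x 0) (h : 0 < x 3) :
    ∃ M, HD GA M x ∧ M.det = -(x 3 ^ 4 / (16 * (GA x 0) ^ 3)) := by
  have hs : 0 < √(x 0) := sqrt_pos.2 h0
  have ht : 0 < √(x 0) * (x 3 ^ 3 * 2⁻¹) := by positivity
  have hr : 0 < √(√(x 0) * (x 3 ^ 3 * 2⁻¹)) := sqrt_pos.2 ht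
  refine ⟨!![1 / (2 * √(√(x 0) * (x 3 ^ 3 * 2⁻¹))) * (x 3 ^ 3 * 2⁻¹ * (1 / (2 * √(x 0)))), 0, 0,
    1 / (2 * √(√(x 0) * (x 3 ^ 3 * 2⁻¹))) * (√(x 0) * (3 * x 3 ^ 2 * 2⁻¹)); 0, 1, 0, 0; 0, 0, 1, 0;
    0, 0, 0, -(x 3 ^ 2)⁻¹], HD.of fun i => ?_, ?_⟩
  · fin_cases i
    · exact ⟨_, (((hp 0 x).sqrt h0.ne').mul (((hp 3 x).pow 3).mul_const 2⁻¹)).sqrt ht.ne',
        fun w => by simp; ring⟩
    · exact ⟨_, hp 1 x, fun w => by simp⟩
    · exact ⟨_, hp 2 x, fun w => by simp⟩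
    · exact ⟨_, hinv x h.ne', fun w => by simp⟩
  · have e0 : GA x 0 = √(√(x 0) * (x 3 ^ 3 * 2⁻¹)) := rfl
    have e1 : √(√(x 0) * (x 3 ^ 3 * 2⁻¹)) ^ 2 = √(x 0) * (x 3 ^ 3 * 2⁻¹) := sq_sqrt ht.le
    rw [det4, e0]
    generalize √(√(x 0) * (x 3 ^ 3 * 2⁻¹)) = r at *
    have e2 : √(x 0) = 2 * r ^ 2 / x 3 ^ 3 := by rw [e1]; field_simp
    rw [e2]
    simp
    field_simp
    ring

theorem dB (x : Fm ℝ) : ∃ M, HD GB M x ∧ M.det = -x 0 := by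
  refine ⟨!![sin (x 1), x 0 * cos (x 1), 0, 0; cos (x 1), -(x 0 * sin (x 1)), 0, 0;
    0, 0, 1, 0; 0, 0, 0, 1], HD.of fun i => ?_, ?_⟩
  · fin_cases i
    · exact ⟨_, (hp 0 x).mul (hp 1 x).sin, fun w => by simp; ring⟩
    · exact ⟨_, (hp 0 x).mul (hp 1 x).cos, fun w => by simp; ring⟩
    · exact ⟨_, hp 2 x, fun w => by simp⟩
    · exact ⟨_, hp 3 x, fun w => by simp⟩
  · rw [det4]
    have := sin_sq_add_cos_sq (x 1)
    simp
    linear_combination (-(x 0)) * this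

theorem dC (x : Fm ℝ) : ∃ M, HD GC M x ∧ M.det ^ 2 = (4 * x 3 ^ 4 * (x 0 ^ 2 + x 1 ^ 2)) ^ 2 := by
  refine ⟨!![1, 0, 0, 0; -x 2, x 3, -x 0, x 1;
    x 2 ^ 2 - x 3 ^ 2, -2 * x 2 * x 3, 2 * x 0 * x 2 - 2 * x 1 * x 3,
      -2 * x 0 * x 3 - 2 * x 1 * x 2;
    -(x 2 ^ 3 - 3 * x 2 * x 3 ^ 2), 3 * x 2 ^ 2 * x 3 - x 3 ^ 3,
      6 * x 1 * x 2 * x 3 - x 0 * (3 * x 2 ^ 2 - 3 * x 3 ^ 2),
      x 1 * (3 * x 2 ^ 2 - 3 * x 3 ^ 2) + 6 * x 0 * x 2 * x 3], HD.of fun i => ?_, ?_⟩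
  · fin_cases i
    · exact ⟨_, hp 0 x, fun w => by simp⟩
    · exact ⟨_, ((hp 1 x).mul (hp 3 x)).sub ((hp 0 x).mul (hp 2 x)), fun w => by simp; ring⟩
    · exact ⟨_, ((hp 0 x).mul (((hp 2 x).pow 2).sub ((hp 3 x).pow 2))).sub
        ((((hp 1 x).const_mul 2).mul (hp 2 x)).mul (hp 3 x)), fun w => by simp; ring⟩
    · exact ⟨_, ((hp 1 x).mul (((((hp 2 x).pow 2).const_mul 3).mul (hp 3 x)).sub
        ((hp 3 x).pow 3))).sub ((hp 0 x).mul (((hp 2 x).pow 3).sub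
        (((hp 2 x).const_mul 3).mul ((hp 3 x).pow 2)))), fun w => by simp; ring⟩
  · rw [det4]
    simp only [Matrix.of_apply, Matrix.cons_val', Matrix.cons_val_zero, Matrix.cons_val_one,
      Matrix.cons_val, Matrix.cons_val_fin_one]
    ring

/-- the parameter box -/
def Bx : Set (Fm ℝ) :=
  Set.pi univ ![Ioc 0 1, Icc 0 π, Icc (-(1 / 2)) (1 / 2), Ioc 0 (7 / 6)]

theorem dall (x : Fm ℝ) (hx : x ∈ Bx) :
    ∃ M, HD (GC ∘ GB ∘ GA) M x ∧ |M.det| = 1 / 4 := by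
  have h0 : x 0 ∈ Ioc (0 : ℝ) 1 := hx 0 trivial
  have h3 : x 3 ∈ Ioc (0 : ℝ) (7 / 6) := hx 3 trivial
  obtain ⟨M1, a1, b1⟩ := dA x h0.1 h3.1
  obtain ⟨M2, a2, b2⟩ := dB (GA x)
  obtain ⟨M3, a3, b3⟩ := dC (GB (GA x))
  refine ⟨M3 * (M2 * M1), HD.comp a3 (HD.comp a2 a1), ?_⟩
  have h31 := h3.1
  have hr : 0 < GA x 0 := sqrt_pos.2 (mul_pos (sqrt_pos.2 h0.1) (by positivity))
  have e0 : GB (GA x) 0 = GA x 0 * sin (x 1) := rfl
  have e1 : GB (GA x) 1 = GA x 0 * cos (x 1) := rfl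
  have e3 : GB (GA x) 3 = (x 3)⁻¹ := rfl
  rw [e0, e1, e3] at b3
  generalize GA x 0 = r at hr b1 b2 b3
  have e6 : (r * sin (x 1)) ^ 2 + (r * cos (x 1)) ^ 2 = r ^ 2 := by
    linear_combination (r ^ 2) * sin_sq_add_cos_sq (x 1)
  rw [e6] at b3
  rw [← abs_of_pos (by norm_num : (0 : ℝ) < 1 / 4), ← sq_eq_sq_iff_abs_eq_abs, Matrix.det_mul,
    Matrix.det_mul, mul_pow, b3, b1, b2]
  field_simp
  norm_num

theorem vol_Bx : volume Bx = ENNReal.ofReal (π * (7 / 6)) := by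
  have hpi := pi_pos
  rw [Bx, volume_pi_pi, Fin.prod_univ_four]
  simp only [Matrix.cons_val_zero, Matrix.cons_val_one, Matrix.cons_val, Real.volume_Ioc,
    Real.volume_Icc]
  rw [← ENNReal.ofReal_mul (by norm_num), ← ENNReal.ofReal_mul (by linarith),
    ← ENNReal.ofReal_mul (by nlinarith)]
  congr 1
  ring

theorem meas_Bx : MeasurableSet Bx := by
  refine MeasurableSet.univ_pi fun i => ?_
  fin_cases i
  · exact measurableSet_Ioc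
  · exact measurableSet_Icc
  · exact measurableSet_Icc
  · exact measurableSet_Ioc

theorem vol_image : volume ((GC ∘ GB ∘ GA) '' Bx) ≤ ENNReal.ofReal 1 := by
  choose! M hM using dall
  refine (addHaar_image_le_lintegral_abs_det_fderiv volume meas_Bx
    (f' := fun x => LinearMap.toContinuousLinearMap (Matrix.toLin' (M x)))
    (fun x hx => (hM x hx).1.hasFDerivWithinAt)).trans ?_
  have e : ∀ x ∈ Bx, ENNReal.ofReal
      |(LinearMap.toContinuousLinearMap (Matrix.toLin' (M x))).det| = ENNReal.ofReal (1 / 4) := by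
    intro x hx
    rw [← (hM x hx).2, ← LinearMap.det_toLin' (M x)]
    rfl
  rw [setLIntegral_congr_fun meas_Bx e, setLIntegral_const, vol_Bx,
    ← ENNReal.ofReal_mul (by norm_num)]
  exact ENNReal.ofReal_le_ofReal (by linarith [pi_lt_d2])

theorem sub_image (T : ℝ) : KG T ⊆ {0} ∪ (GC ∘ GB ∘ GA) '' Bx := by
  rintro f ⟨p, q, u, v, hp0, hu, huv, hv0, -, hN, rfl⟩
  have hu1 := abs_le.1 hu
  have hv7 : 6 / 7 ≤ v := by
    refine (abs_le_of_sq_le_sq' (a := 6 / 7) (b := v) ?_ hv0).2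
    nlinarith
  have hv : 0 < v := by linarith
  by_cases hz : p ^ 2 + q ^ 2 = 0
  · left
    have h2 : p = 0 := by nlinarith [sq_nonneg p, sq_nonneg q]
    have h3 : q = 0 := by nlinarith [sq_nonneg p, sq_nonneg q]
    subst h2 h3
    funext i
    fin_cases i <;> simp [mkG]
  right
  obtain ⟨N, hNd⟩ : ∃ N, N = p ^ 2 + q ^ 2 := ⟨_, rfl⟩
  rw [← hNd] at hz hN
  have hN0 : 0 < N := lt_of_le_of_ne (by rw [hNd]; positivity) (Ne.symm hz)
  have hr : 0 < √N := sqrt_pos.2 hN0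
  have hr2 : √N ^ 2 = N := sq_sqrt hN0.le
  have hx : |q| ≤ √N := abs_le_sqrt (by rw [hNd]; nlinarith [sq_nonneg p])
  have hx1 := abs_le.1 hx
  have hc1 : -1 ≤ q / √N := by rw [le_div_iff₀ hr]; linarith [hx1.1]
  have hc2 : q / √N ≤ 1 := by rw [div_le_iff₀ hr]; linarith [hx1.2]
  have hcos : cos (arccos (q / √N)) = q / √N := cos_arccos hc1 hc2
  have hsin : sin (arccos (q / √N)) = p / √N := by
    have e : 1 - (q / √N) ^ 2 = (p / √N) ^ 2 := by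
      rw [div_pow, div_pow, hr2]
      field_simp
      linarith
    rw [sin_arccos, e, sqrt_sq (by positivity)]
  refine ⟨![4 * v ^ 6 * N ^ 2, arccos (q / √N), u, v⁻¹], ?_, ?_⟩
  · intro i _
    fin_cases i
    · exact ⟨by show 0 < 4 * v ^ 6 * N ^ 2; positivity, hN⟩
    · exact ⟨arccos_nonneg _, arccos_le_pi _⟩
    · exact hu1
    · refine ⟨inv_pos.2 hv, ?_⟩
      show v⁻¹ ≤ 7 / 6
      rw [inv_le_comm₀ hv (by norm_num)]
      linarith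
  · have e2 : GA ![4 * v ^ 6 * N ^ 2, arccos (q / √N), u, v⁻¹] = ![√N, arccos (q / √N), u, v] := by
      have : √(4 * v ^ 6 * N ^ 2) * (v⁻¹ ^ 3 * 2⁻¹) = N := by
        rw [show 4 * v ^ 6 * N ^ 2 = (2 * v ^ 3 * N) ^ 2 by ring, sqrt_sq (by positivity)]
        field_simp
      show ![√(√(4 * v ^ 6 * N ^ 2) * (v⁻¹ ^ 3 * 2⁻¹)), arccos (q / √N), u, v⁻¹⁻¹] = _
      rw [this, inv_inv]
    have e3 : GB ![√N, arccos (q / √N), u, v] = ![p, q, u, v] := by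
      have a1 : √N * sin (arccos (q / √N)) = p := by
        rw [hsin]
        field_simp
      have a2 : √N * cos (arccos (q / √N)) = q := by
        rw [hcos]
        field_simp
      show ![√N * sin (arccos (q / √N)), √N * cos (arccos (q / √N)), u, v] = _
      rw [a1, a2]
    simp only [Function.comp_apply]
    rw [e2, e3]
    rfl

theorem compact_KG (T : ℝ) : IsCompact (KG T) := by
  have e : KG T = GC '' {z : Fm ℝ | 0 ≤ z 0 ∧ |z 2| ≤ 1 / 2 ∧ 1 ≤ z 2 ^ 2 + z 3 ^ 2 ∧ 0 ≤ z 3 ∧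
      z 3 ≤ T ∧ 4 * z 3 ^ 6 * (z 0 ^ 2 + z 1 ^ 2) ^ 2 ≤ 1} := by
    ext f
    constructor
    · rintro ⟨p, q, u, v, h1, h2, h3, h4, h5, h6, rfl⟩
      exact ⟨![p, q, u, v], ⟨h1, h2, h3, h4, h5, h6⟩, rfl⟩
    · rintro ⟨z, ⟨h1, h2, h3, h4, h5, h6⟩, rfl⟩
      exact ⟨z 0, z 1, z 2, z 3, h1, h2, h3, h4, h5, h6, rfl⟩
  have hc : Continuous GC := continuous_iff_continuousAt.2 fun x => by
    obtain ⟨M, h, -⟩ := dC x
    exact HasFDerivAt.continuousAt h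
  rw [e]
  refine IsCompact.image ?_ hc
  refine (isCompact_Icc (a := fun _ => -(|T| + 1)) (b := fun _ => |T| + 1)).of_isClosed_subset
    ?_ ?_
  · refine IsClosed.and ?_ (IsClosed.and ?_ (IsClosed.and ?_ (IsClosed.and ?_
      (IsClosed.and ?_ ?_)))) <;> exact isClosed_le (by fun_prop) (by fun_prop)
  · rintro z ⟨h1, h2, h3, h4, h5, h6⟩
    have hT := abs_nonneg T
    have hT1 := le_abs_self T
    have hu := abs_le.1 h2
    have hv : 3 / 4 ≤ z 3 ^ 2 := by nlinarith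
    have hv6 : (3 / 4 : ℝ) ^ 3 ≤ z 3 ^ 6 := by
      rw [show z 3 ^ 6 = (z 3 ^ 2) ^ 3 by ring]
      exact pow_le_pow_left₀ (by norm_num) hv 3
    obtain ⟨N, hNd⟩ : ∃ N, N = z 0 ^ 2 + z 1 ^ 2 := ⟨_, rfl⟩
    rw [← hNd] at h6
    have hN2 : N ^ 2 ≤ 1 ^ 2 := by nlinarith [sq_nonneg N]
    have hN : N ≤ 1 := (abs_le_of_sq_le_sq' hN2 (by norm_num)).2
    have hp := abs_le_of_sq_le_sq' (a := z 0) (b := 1) (by nlinarith [sq_nonneg (z 1)]) zero_le_one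
    have hq := abs_le_of_sq_le_sq' (a := z 1) (b := 1) (by nlinarith [sq_nonneg (z 0)]) zero_le_one
    refine ⟨fun i => ?_, fun i => ?_⟩
    · fin_cases i
      · show -(|T| + 1) ≤ z 0
        linarith
      · show -(|T| + 1) ≤ z 1
        linarith [hq.1]
      · show -(|T| + 1) ≤ z 2
        linarith [hu.1]
      · show -(|T| + 1) ≤ z 3
        linarith
    · fin_cases i
      · show z 0 ≤ |T| + 1
        linarith [hp.2]
      · show z 1 ≤ |T| + 1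
        linarith [hq.2]
      · show z 2 ≤ |T| + 1
        linarith [hu.2]
      · show z 3 ≤ |T| + 1
        linarith

theorem rowVOLN : RowVOLN := fun T =>
  ⟨compact_KG T, (measure_mono (sub_image T)).trans ((measure_union_le _ _).trans (by
    rw [measure_singleton, zero_add]
    exact vol_image))⟩

end Pool.Agent.MP_5f72fe_nt.H88
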